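import Mathlib
import Pool.Agent.Lib.MP_d3cc86_co.AM.Main

set_option autoImplicit false

open Finset

namespace Pool.Agent.Lib.MP_d3cc86_co.Old.AllModuli

/-- The set of all values `|Σ A|`, where `A` runs over the asymmetric `m`-subsets of `ℤ/nℤ`
(`Finset.subsetSum A` is the set of all sums of subsets of `A`, the empty sum `0` included). -/
def sumSizes (n m : ℕ) : Set ℕ :=
  {k | ∃ A : Finset (ZMod n), A.card = m ∧ (∀ a ∈ A, -a ∉ A) ∧ A.subsetSum.card = k}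

/-- The quantity `ρ_A(n, m)` of the problem: the least size of `Σ A`. -/
noncomputable def rhoA (n m : ℕ) : ℕ := sInf (sumSizes n m)

/-- `value h m = h (1 + h Q (Q+1)/2 + s (Q+1))`, where `m - ⌊(h-1)/2⌋ = Q h + s`, `0 ≤ s < h` (natural
number subtraction, so `Q = s = 0` and the value is `h` for `m ≤ (h-1)/2`). -/
def value (h m : ℕ) : ℕ :=
  let k := m - (h - 1) / 2
  h * (1 + h * (k / h * (k / h + 1) / 2) + k % h * (k / h + 1))

/-- For every `ε > 0` there is `M` such that for ALL `n` and all `m` with `M ≤ m ≤ ⌊(n-1)/2⌋`: with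
`F = min_{h ∣ n} value h m` we have `(1 - ε) F ≤ ρ_A(n, m) ≤ F`, and `ρ_A(n, m) = F` whenever
`F ≤ (12/25 - ε) m^2`. -/
theorem result (ε : ℝ) (hε : 0 < ε) :
    ∃ M : ℕ, ∀ n m : ℕ, M ≤ m → 1 ≤ m → m ≤ (n - 1) / 2 →
      IsLeast (sumSizes n m) (rhoA n m) ∧
      ∃ F : ℕ, IsLeast {v : ℕ | ∃ h : ℕ, h ∣ n ∧ v = value h m} F ∧
        rhoA n m ≤ F ∧ (1 - ε) * (F : ℝ) ≤ (rhoA n m : ℝ) ∧
        ((F : ℝ) ≤ (12 / 25 - ε) * (m : ℝ) ^ 2 → rhoA n m = F) := by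
  have hphi : ∀ h m, SPR.phi h m = value h m := fun h m => rfl
  obtain ⟨L, hL⟩ := exists_nat_gt (28 / ε + 2)
  have hL2 : 2 ≤ L := by
    have h1 : (0 : ℝ) ≤ 28 / ε := by positivity
    have h2 : (2 : ℝ) < (L : ℝ) := by linarith
    exact_mod_cast h2.le
  have hLε : 28 ≤ ε * L := by
    have h1 : 28 / ε < L := by linarith
    rw [div_lt_iff₀ hε] at h1
    linarith
  obtain ⟨M, hM⟩ := AM.lowerAM L hL2
  refine ⟨M, fun n m hMm hm1 hm => ?_⟩
  have hn : 0 < n := by omega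
  haveI : NeZero n := ⟨hn.ne'⟩
  have hup : ∀ h, h ∣ n → ∃ k ∈ sumSizes n m, k ≤ value h m := by
    intro h hd
    obtain ⟨A, hA1, hA2, hA3⟩ := AM.upper_all n h m hn hd hm
    exact ⟨A.subsetSum.card, ⟨A, hA1, hA2, rfl⟩, by rw [← hphi]; exact hA3⟩
  have hne : (sumSizes n m).Nonempty := by
    obtain ⟨k, hk, _⟩ := hup 1 (one_dvd _)
    exact ⟨k, hk⟩
  have hleast : IsLeast (sumSizes n m) (rhoA n m) :=
    ⟨Nat.sInf_mem hne, fun k hk => Nat.sInf_le hk⟩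
  refine ⟨hleast, ?_⟩
  set V : Set ℕ := {v : ℕ | ∃ h : ℕ, h ∣ n ∧ v = value h m} with hV
  have hVne : V.Nonempty := ⟨value 1 m, 1, one_dvd _, rfl⟩
  have hF : IsLeast V (sInf V) := ⟨Nat.sInf_mem hVne, fun k hk => Nat.sInf_le hk⟩
  have hFle : ∀ h, h ∣ n → sInf V ≤ value h m := fun h hd => hF.2 ⟨h, hd, rfl⟩
  have hle : rhoA n m ≤ sInf V := by
    obtain ⟨h, hd, he⟩ := hF.1
    obtain ⟨k, hk, hk2⟩ := hup h hd
    rw [he]
    exact (hleast.2 hk).trans hk2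
  obtain ⟨A, hA1, hA2, hA3⟩ := hleast.1
  have hlow := hM n A hA2 (by rw [hA1]; exact hMm)
  rw [hA1, hA3] at hlow
  refine ⟨sInf V, hF, hle, ?_, ?_⟩
  · rcases hlow with ⟨h, hd, h1⟩ | ⟨h, X, hd, h1, h2, h3⟩
    · have h4 := (hFle h hd).trans h1
      have h5 : ((sInf V : ℕ) : ℝ) ≤ (rhoA n m : ℝ) := by exact_mod_cast h4
      have h6 : (0 : ℝ) ≤ ((sInf V : ℕ) : ℝ) := Nat.cast_nonneg _
      nlinarith
    · have h4 : ((sInf V : ℕ) : ℝ) ≤ (X : ℝ) := by exact_mod_cast (hFle h hd).trans h1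
      have h5 : (L : ℝ) * X ≤ L * (rhoA n m : ℝ) + 13 * (m : ℝ) ^ 2 := by exact_mod_cast h2
      have h6 : 12 * (m : ℝ) ^ 2 ≤ 25 * (X : ℝ) := by exact_mod_cast h3
      have h7 : (0 : ℝ) ≤ ((sInf V : ℕ) : ℝ) := Nat.cast_nonneg _
      have h8 : (0 : ℝ) ≤ (rhoA n m : ℝ) := Nat.cast_nonneg _
      have h9 : (0 : ℝ) < (L : ℝ) := by
        have : (2 : ℝ) ≤ (L : ℝ) := by exact_mod_cast hL2
        linarith
      by_cases he : 1 ≤ ε
      · have : (1 - ε) * ((sInf V : ℕ) : ℝ) ≤ 0 :=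
          mul_nonpos_of_nonpos_of_nonneg (by linarith) h7
        linarith
      · push Not at he
        have hX0 : (0 : ℝ) ≤ X := Nat.cast_nonneg _
        have h10 : (1 - ε) * ((sInf V : ℕ) : ℝ) ≤ (1 - ε) * X :=
          mul_le_mul_of_nonneg_left h4 (by linarith)
        have h11 : (L : ℝ) * ((1 - ε) * X) ≤ L * (rhoA n m : ℝ) := by
          have e1 : 28 * (X : ℝ) ≤ ε * L * X := mul_le_mul_of_nonneg_right hLε hX0
          nlinarith
        have h12 := le_of_mul_le_mul_left h11 h9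
        linarith
  · intro hFm
    refine le_antisymm hle ?_
    rcases hlow with ⟨h, hd, h1⟩ | ⟨h, X, hd, h1, h2, h3⟩
    · exact (hFle h hd).trans h1
    · have h5 : (L : ℝ) * X ≤ L * (rhoA n m : ℝ) + 13 * (m : ℝ) ^ 2 := by exact_mod_cast h2
      have h6 : 12 * (m : ℝ) ^ 2 ≤ 25 * (X : ℝ) := by exact_mod_cast h3
      have h9 : (0 : ℝ) < (L : ℝ) := by
        have : (2 : ℝ) ≤ (L : ℝ) := by exact_mod_cast hL2
        linarith
      have hm2 : (0 : ℝ) ≤ (m : ℝ) ^ 2 := by positivity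
      have h11 : (L : ℝ) * ((sInf V : ℕ) : ℝ) ≤ L * (rhoA n m : ℝ) := by
        have e1 : 28 * (m : ℝ) ^ 2 ≤ ε * L * (m : ℝ) ^ 2 := mul_le_mul_of_nonneg_right hLε hm2
        have e2 : (L : ℝ) * ((sInf V : ℕ) : ℝ) ≤ L * ((12 / 25 - ε) * (m : ℝ) ^ 2) :=
          mul_le_mul_of_nonneg_left hFm h9.le
        have e3 : (L : ℝ) * (12 * (m : ℝ) ^ 2) ≤ L * (25 * (X : ℝ)) :=
          mul_le_mul_of_nonneg_left h6 h9.le
        nlinarith
      have h12 := le_of_mul_le_mul_left h11 h9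
      exact_mod_cast h12

end Pool.Agent.Lib.MP_d3cc86_co.Old.AllModuli
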